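import Pool.Agent.H57.EQ.Targets

/-!
# The map on pairs for the injective part (row BKG of eqm_modules)
-/

set_option autoImplicit false

namespace Pool.Agent.H3.EQ

open Pool.Agent.H68.BP Pool.Agent.H58.SF Pool.Agent.H53.GC Pool.Agent.H53.NR
open Pool.Agent.H57.EQ
open Function

theorem pf_BKG : T_BKG := by
  classical
  intro σ V X _ 𝔸 M c fr hS h h' hO hz hb
  refine ⟨?_, fun r x y x' y' => by rw [hb.1]⟩
  intro s k τ v hv hτ
  obtain ⟨e, he1, he2, he3⟩ := hb.2 (Finset.univ.image v)
  have hm : ∀ a, v a ∈ Finset.univ.image v := fun a =>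
    Finset.mem_image_of_mem v (Finset.mem_univ a)
  obtain ⟨ψ, hψ1, hψ2⟩ := hO.comb (Fin (arP (sigI σ) M s)) (fun l a => e (v a) l)
  have hψ3 : ∀ a b, c (ψ a) (ψ b) = h' (v a) (v b) := by
    intro a b
    rw [hψ2, he3 _ (hm a) _ (hm b)]
  refine ⟨ψ, ?_, ?_, ?_⟩
  · cases s with
    | none => trivial
    | some i =>
      have hinj : ∀ l, Injective (fun a => v a l) := fun l => (hv l).1
      refine ⟨?_, ?_⟩
      · intro a b hab
        by_contra hne
        have h1 : v a ≠ v b := fun h2 => hne (hinj 0 (congrFun h2 0))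
        have h2 : c (ψ a) (ψ b) = none := (hS.col.none_iff _ _).2 hab
        exact hz _ _ (fun l l' => he1 _ (hm a) _ (hm b) h1 l l') ((hψ2 a b).symm.trans h2)
      · refine hψ1 _ _ fun l => ?_
        refine hS.inv _ (fun a => v (((Finite.equivFin (SI σ)).symm i).2.2 a) l) _ (hv l).2 ?_
        intro a b
        by_cases hab : ((Finite.equivFin (SI σ)).symm i).2.2 a =
            ((Finite.equivFin (SI σ)).symm i).2.2 b
        · have h1 : ∀ x : V, c x x = none := fun x => (hS.col.none_iff x x).2 rfl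
          simp only [hab, h1]
        · exact he2 _ (hm _) _ (hm _) l fun h1 => hab (hinj l h1)
  · intro a b hab
    have h1 : v a = v b := hτ a b hab
    rw [← hS.col.none_iff, hψ2]
    have h2 : (fun i => e (v a) i) = fun i => e (v b) i := by rw [h1]
    rw [h2, ← hψ2]
    exact (hS.col.none_iff _ _).2 rfl
  · intro a b
    show (c (ψ a) (ψ b)).getD fr = _
    rw [hψ3]

end Pool.Agent.H3.EQ
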