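import Pool.Agent.H57.EQ.Targets
import Pool.Agent.H19.BPG.NRM

/-!
# Cyclic families (row CYF of eqm_modules)
-/

set_option autoImplicit false

namespace Pool.Agent.H3.EQ

open Pool.Agent.H53.GC Pool.Agent.H58.CT
open Pool.Agent.H57.EQ

section

variable {𝓔 X 𝓛 : Type} {R : 𝓛 → (𝓔 → X) → Prop} {ρ : 𝓔 → X → X}

/-- the projections -/
theorem cyf_pr (hρ : CoreRet R ρ) {I : Type} (i : I) : IFam R ρ I (fun e w => ρ e (w i)) :=
  ⟨fun l p hp => hρ.fam l (p i) (hp i), fun e _ => hρ.idem e _, fun e _ => hρ.idem e _,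
    fun _ _ => rfl⟩

/-- composition -/
theorem cyf_comp {I J : Type} {t : 𝓔 → (I → X) → X} (ht : IFam R ρ I t)
    {s : I → 𝓔 → (J → X) → X} (hs : ∀ i, IFam R ρ J (s i)) :
    IFam R ρ J (fun e w => t e (fun i => s i e w)) := by
  refine ⟨fun l p hp => ht.fam l (fun i e => s i e (fun a => p a e)) fun i => (hs i).fam l p hp,
    fun e w => ht.left e _, fun e w => ?_, fun e x => ?_⟩
  · exact congrArg (t e) (funext fun i => (hs i).right e w)
  · have h1 : (fun i => s i e (fun _ => x)) = fun _ : I => ρ e x :=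
      funext fun i => (hs i).idem e x
    show t e (fun i => s i e (fun _ => x)) = ρ e x
    rw [h1, ht.right e (fun _ => x)]
    exact ht.idem e x

/-- the clone of the idempotent families -/
def cyfCln (hρ : CoreRet R ρ) : Cln where
  T I := {F : 𝓔 → (I → X) → X // IFam R ρ I F}
  pr i := ⟨_, cyf_pr hρ i⟩
  comp t s := ⟨_, cyf_comp t.2 fun i => (s i).2⟩

/-- the algebras -/
@[instance_reducible] def cyfAlg (hρ : CoreRet R ρ) (e : 𝓔) : Alg (cyfCln hρ) {x : X // ρ e x = x} where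
  int t x := ⟨t.1 e (fun i => (x i).1), t.2.left e _⟩
  int_pr i x := Subtype.ext (x i).2
  int_comp _ _ _ := rfl
  idem t a := Subtype.ext ((t.2.idem e a.1).trans a.2)

end

theorem pf_CYF (hT : T_TRN) (hC : T_COR) : T_CYF := by
  intro 𝓔 X 𝓛 _ _ R hsel p hp hX
  obtain ⟨ρ, hρ⟩ := hC 𝓔 X 𝓛 R
  have hN : ∀ (I : Type) (F : 𝓔 → (I → X) → X), Fam R I F →
      IFam R ρ I (fun e => nrm (ρ e) (F e)) := Pool.Agent.H19.BPG.pf_NRM 𝓔 X 𝓛 R ρ hρ
  have hno : @NoPrjOn (cyfCln hρ) 𝓔 (fun e => {x : X // ρ e x = x}) (fun e => cyfAlg hρ e) := by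
    rintro ⟨ι, k1, k2, -⟩
    refine hsel ⟨fun I F i => ∃ (hI : Finite I) (hF : Fam R I F),
      @ι I hI ⟨_, hN I F hF⟩ = i, ?_, ?_⟩
    · intro I hI F hF
      exact ⟨_, hI, hF, rfl⟩
    · rintro I J hI hJ π F i j - ⟨_, hF, h1⟩ ⟨_, hF', h2⟩
      have h3 := k2 I J ⟨_, hN I F hF⟩ (fun i => (cyfCln hρ).pr (π i))
      rw [k1, h1] at h3
      rw [← h3, ← h2]
      congr 1
      apply Subtype.ext
      funext e w
      show nrm (ρ e) (F e) (fun i => ρ e (w (π i))) =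
        nrm (ρ e) (fun x => F e (fun i => x (π i))) w
      rw [(hN I F hF).right e (fun i => w (π i))]
      rfl
  have : Fact p.Prime := ⟨hp⟩
  obtain ⟨t, ht⟩ := @hT (cyfCln hρ) 𝓔 inferInstance (fun e => {x : X // ρ e x = x})
    (fun e => cyfAlg hρ e) (fun e => inferInstance) p inferInstance hno
    (fun e => lt_of_le_of_lt (Finite.card_subtype_le _) hX)
  refine ⟨t.1, t.2.fam, fun e w => ?_⟩
  have h1 := congrArg Subtype.val (ht e (fun i => ⟨ρ e (w i), hρ.idem e _⟩))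
  have h2 : t.1 e (fun i => ρ e (w (i + 1))) = t.1 e (fun i => ρ e (w i)) := h1
  rw [t.2.right e (fun i => w (i + 1)), t.2.right e w] at h2
  exact h2

end Pool.Agent.H3.EQ
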